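import Pool.Agent.LPR.Stmts

/-!
Row STL of squad LPR (MP_005a41_gt): S-stable metrizable spaces are l-stable.
-/

set_option autoImplicit false

open Set Topology

namespace Pool.Agent.LPR.H75

open Pool.Agent.LSG Pool.Agent.LPR

theorem stl (hCLO : CloStmt) (hCZD : CzdStmt) (hALG : AlgStmt) (hCZE : CzeStmt) (hCPE : CpeStmt)
    (hBRI : BriStmt) : StlStmt := by
  intro X _ _ hS A hA
  have hAc : IsClosed A := hCLO X A hA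
  have hS' : LEc (X × OnePoint ℕ) X := (hBRI.1 _ _).1 hS
  obtain ⟨s⟩ := hS'
  obtain ⟨⟨z1⟩, ⟨z2⟩, _⟩ := hCZE X
  obtain ⟨_, ⟨a2⟩, _⟩ := hCZE ↥A
  have eEZ : ↥(Cp X) ≃L[ℝ] ↥(Cz X) := (s.symm.trans z1).trans z2.symm
  obtain ⟨zA⟩ := (hALG ↥(Cz X) ↥(Cz ↥A) ↥(Cp ↥A) ↥(Cp ↥A)).2.1 (hCZD X A hAc)
    ⟨a2.trans (ContinuousLinearEquiv.prodComm ℝ _ _)⟩
  obtain ⟨c⟩ := hCPE.2.1 X ↥A
  refine (hBRI.1 _ _).2 ⟨eEZ.trans (zA.trans ((eEZ.symm.prodCongr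
    (ContinuousLinearEquiv.refl ℝ _)).trans c.symm))⟩

end Pool.Agent.LPR.H75
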