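import Pool.Agent.LPR.Stmts

/-!
Row CLO of squad LPR (MP_005a41_gt): l-embedded sets are closed (second proof).
-/

set_option autoImplicit false

open Set Topology

namespace Pool.Agent.LPR.H75

open Pool.Agent.LSG Pool.Agent.LPR

theorem clo : CloStmt := by
  intro X _ _ A hA
  let _ : MetricSpace X := TopologicalSpace.metrizableSpaceMetric X
  obtain ⟨φ, _, hφ⟩ := hA
  refine isClosed_of_closure_subset fun x hx => ?_
  by_contra hxA
  have hne : ∀ a : A, dist a.1 x ≠ 0 := fun a h => hxA ((dist_eq_zero.1 h) ▸ a.2)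
  let f : C(A, ℝ) := ⟨fun a => (dist a.1 x)⁻¹,
    (continuous_subtype_val.dist continuous_const).inv₀ hne⟩
  have hg : ContinuousAt (φ f) x := (φ f).continuous.continuousAt
  obtain ⟨δ, hδ, hd⟩ := Metric.continuousAt_iff.1 hg 1 one_pos
  have hpos : 0 < |φ f x| + 2 := by
    have := abs_nonneg (φ f x)
    linarith
  obtain ⟨a, haA, ha⟩ := Metric.mem_closure_iff.1 hx (min δ (|φ f x| + 2)⁻¹)
    (lt_min hδ (inv_pos.2 hpos))
  have h1 : dist a x < δ := by
    rw [dist_comm]
    exact lt_of_lt_of_le ha (min_le_left _ _)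
  have h2 : dist a x < (|φ f x| + 2)⁻¹ := by
    rw [dist_comm]
    exact lt_of_lt_of_le ha (min_le_right _ _)
  have h3 := hd h1
  have h4 : φ f a = (dist a x)⁻¹ := hφ f ⟨a, haA⟩
  have h5 : 0 < dist a x := lt_of_le_of_ne dist_nonneg (Ne.symm (hne ⟨a, haA⟩))
  have h6 : |φ f x| + 2 < (dist a x)⁻¹ := by
    rw [lt_inv_comm₀ hpos h5]
    exact h2
  rw [Real.dist_eq, h4] at h3
  have h7 := (abs_lt.1 h3).2
  have h8 := le_abs_self (φ f x)
  linarith

end Pool.Agent.LPR.H75
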